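import Pool.Agent.V1142.PA.B

/-!
# The `l`-adic realization over `ℚ` from those over two number fields

`Π` is an algebraic cuspidal representation of `GL_n(𝔸)`, `Z` the finite set of the primes at which it is
ramified, and for `p ∉ Z` the polynomial `q_p` is the characteristic polynomial of the geometric Frobenius
elements under `ι_l⁻¹ rec(Π_p ⊗ | |^((n-1)/2))`.  (The places `v` of `ℚ` correspond to the primes
`p = N(v)`.)  So by property (2) the semisimplification of the `l`-adic realization of the motive `M_Π` is a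
continuous semisimple representation of `Gal(ℚ̄/ℚ)` on `ℚ̄_l ^ n` which is unramified outside `Z` and `l` with
these characteristic polynomials.

Let `K₀` be a number field and `ρ₀` a continuous semisimple representation of `Gal(ℚ̄/K₀)` on `ℚ̄_l ^ n`
which has these characteristic polynomials at the places of relative degree one of `K₀` above the primes
outside `Z`, `l` and a finite set `S₀`, for example the semisimplification of the `l`-adic realization of a
motive over `K₀` that belongs to the base change of `Π`.  Then there is a number field `M`, depending only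
on this, such that for each number field `K₁` with `K₁ ∩ M = ℚ` and each representation `ρ₁` of
`Gal(ℚ̄/K₁)` of the same kind there is a representation `ρ` of `Gal(ℚ̄/ℚ)` which extends both, is
irreducible if `ρ₀` or `ρ₁` is, and is unramified with the characteristic polynomials `q_p` at all primes
outside `Z` and `l` at which (and outside `S_i`) `K_i` has a place with completion `ℚ_p`, `i = 0` or `1`.
-/

set_option autoImplicit false

namespace Pool.Agent.Results.MP_7742d9_nt.TwoFieldsSuffice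

open NumberField IsDedekindDomain Pool.Agent.V1142.PA Polynomial

/-- The places of `ℚ`. -/
abbrev Place : Type := HeightOneSpectrum (𝓞 ℚ)

theorem result (n : ℕ) (l : ℕ) [Fact l.Prime] (Z : Set Place) (hZ : Z.Finite)
    (q : Place → (PadicAlgCl l)[X]) (K₀ : Ext ℚ) (hK₀ : FiniteDimensional ℚ K₀)
    (ρ₀ : GE K₀ →* GL (Fin n) (PadicAlgCl l)) (hρ₀ : Continuous ρ₀) (hss₀ : IsSemisimpleG ρ₀)
    (S₀ : Set Place) (hS₀ : S₀.Finite)
    (hc₀ : ∀ v ∉ Z ∪ S₀, (l : 𝓞 ℚ) ∉ v.asIdeal → MatchDegreeOneF ρ₀ v (q v)) :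
    ∃ M : Ext ℚ, FiniteDimensional ℚ M ∧ ∀ K₁ : Ext ℚ, FiniteDimensional ℚ K₁ → K₁ ⊓ M = ⊥ →
      ∀ ρ₁ : GE K₁ →* GL (Fin n) (PadicAlgCl l), Continuous ρ₁ → IsSemisimpleG ρ₁ →
      ∀ S₁ : Set Place, S₁.Finite →
      (∀ v ∉ Z ∪ S₁, (l : 𝓞 ℚ) ∉ v.asIdeal → MatchDegreeOneF ρ₁ v (q v)) →
      ∃ ρ : GF ℚ →* GL (Fin n) (PadicAlgCl l), Continuous ρ ∧ IsSemisimpleG ρ ∧
        (∃ h : GL (Fin n) (PadicAlgCl l), ∀ g : GE K₀, ρ g = h * ρ₀ g * h⁻¹) ∧
        (∃ h : GL (Fin n) (PadicAlgCl l), ∀ g : GE K₁, ρ g = h * ρ₁ g * h⁻¹) ∧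
        (IrrN ρ₀ ∨ IrrN ρ₁ → IrrN ρ) ∧
        ∀ v ∉ Z, (l : 𝓞 ℚ) ∉ v.asIdeal →
          (v ∉ S₀ ∧ HasLocalDegreeOneF K₀ v) ∨ (v ∉ S₁ ∧ HasLocalDegreeOneF K₁ v) →
          MatchF ρ v (q v) :=
  two_extN_main l Z hZ q K₀ hK₀ ρ₀ hρ₀ hss₀ S₀ hS₀ hc₀

end Pool.Agent.Results.MP_7742d9_nt.TwoFieldsSuffice
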